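import Pool.Agent.P.MP_5a7d1f_lc.Nik.Model

open Pool.Agent.Lib.Forcing Pool.Agent.P.MP_af0a18_lc Pool.Agent.P.MP_5a7d1f_lc.Gro
  Pool.Agent.P.MP_5a7d1f_lc.Nik

/-- There is a countable transitive model `N` of ZFC and MA in which the Stone space of every
infinite Boolean algebra with the Nikodym property or the Grothendieck property contains a copy
of `βω`, hence is not an Efimov space. -/
theorem Pool.Agent.Results.MP_5a7d1f_lc.NoEfimov.result :
    ∃ N : Set ZFSet.{0}, N.Countable ∧ IsZFModel N ∧ Choice N ∧ MAIn N ∧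
      ∀ (A : Type) [BooleanAlgebra A] [Infinite A] (c : A → ZFSet.{0}),
        IsAlgebraIn N c → NikodymIn N c ∨ GrothendieckIn N c → ContainsBetaIn N c :=
  Pool.Agent.P.MP_5a7d1f_lc.Nik.exists_model
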