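import Pool.Agent.P.MP_5a7d1f_lc.Plank

/-!
# Minimally generated algebras with the Nikodym property under Martin's axiom

Points of the Stone space of `A` are the Boolean homomorphisms `A → {0,1}`; a net converges to
`p` when its value at each `a : A` is eventually `p a`.
-/

namespace Pool.Agent.Results.MP_5a7d1f_lc.SimpleExtensions

open Pool.Agent.P.MP_5a7d1f_lc

universe u v

theorem result (MA : MartinsAxiom) (A : Type u) [BooleanAlgebra A]
    (hA : IsMinimallyGenerated.{v} A) (hN : HasNikodym A)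
    (ι : Type) [Preorder ι] (hι : Cardinal.mk ι < Cardinal.continuum)
    (hdir : ∀ s : ℕ → ι, ∃ b : ι, ∀ n, s n ≤ b) :
    {p : BoundedLatticeHom A Bool | ∃ x : ι → BoundedLatticeHom A Bool,
      (∀ i, x i ≠ p) ∧ ∀ a : A, ∃ i, ∀ j, i ≤ j → x j a = p a}.Finite := by
  by_contra hinf
  have hinf' := Set.not_finite.1 hinf
  obtain ⟨l, C, h1, h2, h3, h4, h5⟩ := hA
  let e := hinf'.natEmbedding
  choose z hz1 hz2 using fun n => (e n).2
  exact plank MA (pairSep_of_nikodym hN) ⟨h1, h2, h3, h4, h5⟩ hι hdir (fun n => (e n).1)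
    (Subtype.val_injective.comp e.injective) z hz1 hz2

end Pool.Agent.Results.MP_5a7d1f_lc.SimpleExtensions
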