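import Pool.Agent.P.MP_5a7d1f_lc.TAlg

/-!
# No infinite T-algebra has the Nikodym property
-/

namespace Pool.Agent.Results.MP_5a7d1f_lc.TAlgebra

open Pool.Agent.P.MP_5a7d1f_lc

universe u v

theorem result (A : Type u) [BooleanAlgebra A] [Infinite A]
    (T : Set Node.{v}) (a : Node.{v} → A) (h : IsTAlgebra T a) : ¬ HasNikodym A :=
  fun hN => h.not_pairSep (pairSep_of_nikodym hN)

end Pool.Agent.Results.MP_5a7d1f_lc.TAlgebra
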